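import Pool.Agent.Lib.MP_ba0fa5_ag.AA.AsmA

/-!
# Almost every pair (genus, characteristic) carries a supersingular curve

For every `ε > 0` the following holds for all `g` outside a set of natural density zero: there is
`M ≥ 1` such that for at least `(1 - ε) φ(M)` reduced residue classes `a` modulo `M` every prime
`p ≡ a mod M` is the characteristic of a supersingular curve of genus `g`.  (Hence the set of these
primes `p` has lower density at least `1 - ε` in the set of all primes; see `AA.MostPrimes` and
`AA.a_logd` for the version with logarithmic density.)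

`SupersingularGenus` is defined in `Pool.Agent.Lib.MP_ba0fa5_ag.Defs`, `MostClasses` in
`Pool.Agent.Lib.MP_ba0fa5_ag.AA.DefsA`; the proof is explained in
`Pool/Agent/Lib/MP_ba0fa5_ag/AA/PaperA.md`.
-/

namespace Pool.Agent.Results.MP_ba0fa5_ag.AlmostAllPairs

open Pool.Agent.Lib.MP_ba0fa5_ag
open scoped Classical Topology

/-- For every `ε > 0` and almost all `g` (natural density one) there is a modulus `M` such that all
primes `p` in at least `(1 - ε) φ(M)` of the reduced residue classes modulo `M` admit a
supersingular curve of genus `g` in characteristic `p`. -/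
theorem result : ∀ ε : ℝ, 0 < ε → Filter.Tendsto
    (fun X : ℕ => (((Finset.Icc 1 X).filter
      (fun g => AA.MostClasses ε (fun p => SupersingularGenus p g))).card : ℝ) / X)
    Filter.atTop (𝓝 1) := by
  intro ε hε
  rw [Metric.tendsto_atTop]
  intro δ hδ
  obtain ⟨X₀, hX₀⟩ := AA.a_finala ε (δ / 2) hε (by positivity)
  refine ⟨X₀ + 1, fun X hX => ?_⟩
  have h1 := hX₀ X (by omega)
  have hX : (0 : ℝ) < X := by exact_mod_cast (by omega : 0 < X)
  have h2 : (((Finset.Icc 1 X).filter
      (fun g => AA.MostClasses ε (fun p => SupersingularGenus p g))).card : ℝ) ≤ X := by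
    have := Finset.card_filter_le (Finset.Icc 1 X)
      (fun g => AA.MostClasses ε (fun p => SupersingularGenus p g))
    rw [Nat.card_Icc, Nat.add_sub_cancel] at this
    exact_mod_cast this
  have h4 : (((Finset.Icc 1 X).filter (fun g =>
      AA.MostClasses ε (fun p => SupersingularGenus p g) ∧
      AA.MostPrimes ε (fun p => SupersingularGenus p g))).card : ℝ) ≤
      (((Finset.Icc 1 X).filter
        (fun g => AA.MostClasses ε (fun p => SupersingularGenus p g))).card : ℝ) := by
    exact_mod_cast Finset.card_le_card fun g hg => by
      rw [Finset.mem_filter] at hg ⊢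
      exact ⟨hg.1, hg.2.1⟩
  rw [Real.dist_eq, abs_lt]
  constructor
  · have h3 : 1 - δ / 2 ≤ (((Finset.Icc 1 X).filter
        (fun g => AA.MostClasses ε (fun p => SupersingularGenus p g))).card : ℝ) / X := by
      rw [le_div_iff₀ hX]
      exact h1.trans h4
    linarith
  · have h3 : (((Finset.Icc 1 X).filter
        (fun g => AA.MostClasses ε (fun p => SupersingularGenus p g))).card : ℝ) / X ≤ 1 := by
      rw [div_le_one hX]
      exact h2
    linarith

end Pool.Agent.Results.MP_ba0fa5_ag.AlmostAllPairs
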