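import Pool.Agent.Lib.MP_ba0fa5_ag.H1.Final

/-!
# A positive proportion of all genera is supersingular, in every characteristic

For every prime `p` there are `c > 0` and `X₀` such that for all `X ≥ X₀` at least `c X` of the
integers `1 ≤ g ≤ X` are the genus of a supersingular curve in characteristic `p`
(smooth, projective, geometrically irreducible, defined over a finite field).

The definitions are in `Pool.Agent.Lib.MP_ba0fa5_ag.Defs`, the proof is explained in
`Pool/Agent/Lib/MP_ba0fa5_ag/Paper.md`.
-/

namespace Pool.Agent.Results.MP_ba0fa5_ag.PositiveProportion

open Pool.Agent.Lib.MP_ba0fa5_ag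

/-- For every prime `p` a positive proportion of all `g` is the genus of a supersingular curve in
characteristic `p`. -/
theorem result : ∀ p : ℕ, p.Prime → PosProp (SupersingularGenus p) :=
  H1.final

end Pool.Agent.Results.MP_ba0fa5_ag.PositiveProportion
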